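import Mathlib
import Pool.Agent.H2N.NearSpace

set_option autoImplicit false

/-! Elements of number fields near almost every point, outside a thin family: one number field and one space; one null
set for all number fields contained in `ℝ` or in `ℂ`. -/

namespace Pool.Agent.H164.NA

open Filter Topology MeasureTheory NumberField Module
open scoped ENNReal NNReal

/-- the absolute multiplicative height -/
noncomputable def H {K : Type} [Field K] [NumberField K] (c : K) : ℝ :=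
  Real.exp (Height.logHeight₁ c / Module.finrank ℚ K)

variable {K : Type} [Field K] [NumberField K]

theorem n_pos : (0 : ℝ) < Module.finrank ℚ K := by exact_mod_cast (Module.finrank_pos (R := ℚ) (M := K))

theorem one_le_H (c : K) : 1 ≤ H c :=
  Real.one_le_exp (div_nonneg (Height.zero_le_logHeight₁ c) (Nat.cast_nonneg _))

theorem H_le_iff (c : K) {X : ℝ} (hX : 0 < X) :
    H c ≤ X ↔ Height.logHeight₁ c ≤ Module.finrank ℚ K * Real.log X := by
  unfold H
  rw [← Real.le_log_iff_exp_le hX, div_le_iff₀ n_pos, mul_comm]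

/-- one space, all parameters `κ` and all exponents `σ` at once -/
theorem near_space (I : Set ℝ) (s : ℝ → ℝ) (Bad : ℝ → Set K) (hs : ∀ κ ∈ I, 0 ≤ s κ)
    (hcount : ∀ κ ∈ I, ∀ ε : ℝ, 0 < ε → ∃ C : ℝ, ∀ X : ℝ, 1 ≤ X →
      {c : K | c ∈ Bad κ ∧ H c ≤ X}.Finite ∧
        ({c : K | c ∈ Bad κ ∧ H c ≤ X}.ncard : ℝ) ≤ C * X ^ ((Module.finrank ℚ K : ℝ) * s κ + ε))
    (hdense : ∀ κ ∈ I, ∀ t : ℝ, s κ < t → ∃ r : ℚ, (r : ℝ) ∈ I ∧ s r < t ∧ Bad κ ⊆ Bad r)
    {V : Type} [NormedAddCommGroup V] [NormedSpace ℝ V] [FiniteDimensional ℝ V]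
    [MeasurableSpace V] [BorelSpace V] (μ : Measure V) [μ.IsAddHaarMeasure]
    (hV : 0 < Module.finrank ℝ V) (φ : K → V) :
    ∀ᵐ z ∂μ, ∀ κ ∈ I, ∀ σ : ℝ, (Module.finrank ℚ K : ℝ) * s κ / Module.finrank ℝ V < σ →
      {c : K | dist (φ c) z ≤ H c ^ (-σ) ∧ c ∈ Bad κ}.Finite := by
  have hn : (0 : ℝ) < Module.finrank ℚ K := n_pos
  have hm : (0 : ℝ) < Module.finrank ℝ V := by exact_mod_cast hV
  have hr : ∀ r : ℚ, ∀ᵐ z ∂μ, (r : ℝ) ∈ I → ∀ σ : ℝ,
      (Module.finrank ℚ K : ℝ) * s r / Module.finrank ℝ V < σ →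
      {c : K | dist (φ c) z ≤ H c ^ (-σ) ∧ c ∈ Bad r}.Finite := by
    intro r
    by_cases hr0 : (r : ℝ) ∈ I
    · have h1 := Pool.Agent.H2N.ae_family_space μ hV φ (fun c : K => H c)
        one_le_H (s := (Module.finrank ℚ K : ℝ) * s r) (mul_nonneg hn.le (hs _ hr0))
        (J := Unit) (fun _ => Bad r) (fun _ => hcount _ hr0)
      filter_upwards [h1] with z hz _ σ hσ
      exact (hz σ hσ ()).subset fun c hc => ⟨hc.2, hc.1⟩
    · exact Filter.Eventually.of_forall fun z h1 => absurd h1 hr0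
  filter_upwards [ae_all_iff.2 hr] with z hz κ hκ σ hσ
  obtain ⟨r, hr1, hr2, hr3⟩ := hdense κ hκ (σ * Module.finrank ℝ V / Module.finrank ℚ K) (by
    rw [lt_div_iff₀ hn, mul_comm]
    rwa [div_lt_iff₀ hm] at hσ)
  refine (hz r hr1 σ ?_).subset fun c hc => ⟨hc.1, hr3 hc.2⟩
  rw [div_lt_iff₀ hm]
  rwa [lt_div_iff₀ hn, mul_comm] at hr2

/-- Hausdorff dimension, in any metric space -/
theorem near_dim (S : Set K) {s : ℝ} (hs : 0 ≤ s)
    (hcount : ∀ ε : ℝ, 0 < ε → ∃ C : ℝ, ∀ X : ℝ, 1 ≤ X →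
      {c : K | c ∈ S ∧ H c ≤ X}.Finite ∧
        ({c : K | c ∈ S ∧ H c ≤ X}.ncard : ℝ) ≤ C * X ^ ((Module.finrank ℚ K : ℝ) * s + ε))
    {M : Type} [MetricSpace M] (φ : K → M) {σ : ℝ} (hσ : 0 < σ) :
    dimH {z : M | {c : K | dist (φ c) z ≤ H c ^ (-σ) ∧ c ∈ S}.Infinite} ≤
      ENNReal.ofReal (Module.finrank ℚ K * s / σ) := by
  have hn : (0 : ℝ) < Module.finrank ℚ K := n_pos
  obtain ⟨E, hE1, hE2⟩ := Pool.Agent.H107.ME.dim_family φ (fun c : K => H c) one_le_H
    (s := (Module.finrank ℚ K : ℝ) * s) (mul_nonneg hn.le hs) hσ (J := Unit) (fun _ => S)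
    (fun _ => hcount)
  refine (dimH_mono ?_).trans hE1
  intro z hz
  by_contra hcon
  exact hz ((hE2 z hcon ()).subset fun c hc => ⟨hc.2, hc.1⟩)

theorem fin_le (B : ℝ) : {c : K | H c ≤ B}.Finite := by
  have hn : (0 : ℝ) < Module.finrank ℚ K := n_pos
  refine (NumberField.finite_setOfPred_logHeight₁_le (K := K)
    (Module.finrank ℚ K * Real.log (max B 1))).subset ?_
  intro c hc
  have h1 : H c ≤ max B 1 := le_trans hc (le_max_left _ _)
  exact (H_le_iff c (lt_of_lt_of_le one_pos (le_max_right _ _))).1 h1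

theorem H_rat (q : ℚ) : H q = max (q.num.natAbs : ℝ) q.den := by
  unfold H
  rw [Module.finrank_self, Nat.cast_one, div_one, Rat.logHeight₁_eq_log_max, Real.exp_log]
  · push_cast
    rfl
  · have : 0 < max q.num.natAbs q.den := lt_of_lt_of_le q.den_pos (le_max_right _ _)
    exact_mod_cast this

/-- Dirichlet: infinitely many rational numbers near an irrational number (the proof is the one of
`MP_13bc7b_nt.NearAlmostEveryPoint`) -/
theorem near_infinite {z : ℝ} (hz : Irrational z) {σ : ℝ} (hσ : σ < 2) :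
    {c : ℚ | |(c : ℝ) - z| ≤ H c ^ (-σ)}.Infinite := by
  have hA := Real.infinite_rat_abs_sub_lt_one_div_den_sq_of_irrational hz
  have hs : 0 < 2 - σ := by linarith
  have hz1 : 0 < |z| + 1 := by positivity
  have hfin : ({q : ℚ | |z - q| < 1 / (q.den : ℝ) ^ 2} \
      {c : ℚ | |(c : ℝ) - z| ≤ H c ^ (-σ)}).Finite := by
    refine (fin_le (K := ℚ) (((|z| + 1) ^ 2) ^ (1 / (2 - σ)))).subset ?_
    rintro q ⟨h1, h2⟩
    have h1' : |z - q| < 1 / (q.den : ℝ) ^ 2 := h1
    have h2' : H q ^ (-σ) < |(q : ℝ) - z| := not_le.1 h2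
    have hH1 := one_le_H q
    have hH0 : 0 < H q := by linarith
    have hden : (1 : ℝ) ≤ q.den := by exact_mod_cast q.den_pos
    have hden0 : (0 : ℝ) < q.den := by linarith
    have hclose : |z - q| ≤ 1 := by
      refine h1'.le.trans ?_
      rw [div_le_one (by positivity)]
      exact one_le_pow₀ hden
    have hq : |(q : ℝ)| ≤ |z| + 1 := by
      have : |(q : ℝ)| ≤ |z| + |z - q| := by
        have h3 : (q : ℝ) = z - (z - q) := by ring
        rw [h3]
        exact (abs_sub _ _).trans (le_of_eq (by ring_nf))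
      linarith
    have hnum : (q.num.natAbs : ℝ) = |(q : ℝ)| * q.den := by
      have h3 : ((q.num.natAbs : ℕ) : ℝ) = |((q.num : ℤ) : ℝ)| := by
        rw [Nat.cast_natAbs]
        push_cast
        rfl
      rw [h3]
      have h4 : ((q.num : ℤ) : ℝ) = (q : ℝ) * q.den := by
        have := Rat.mul_den_eq_num q
        exact_mod_cast this.symm
      rw [h4, abs_mul, abs_of_pos hden0]
    have hHle : H q ≤ (|z| + 1) * q.den := by
      rw [H_rat]
      refine max_le ?_ ?_
      · rw [hnum]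
        exact mul_le_mul_of_nonneg_right hq hden0.le
      · exact le_mul_of_one_le_left hden0.le (by linarith [abs_nonneg z])
    have h5 : H q ^ (-σ) < (|z| + 1) ^ 2 / H q ^ 2 := by
      rw [abs_sub_comm] at h2'
      refine h2'.trans (h1'.trans_le ?_)
      rw [div_le_div_iff₀ (by positivity) (by positivity), one_mul, ← mul_pow]
      exact pow_le_pow_left₀ hH0.le hHle 2
    have h6 : H q ^ (2 - σ) < (|z| + 1) ^ 2 := by
      rw [lt_div_iff₀ (by positivity)] at h5
      have h7 : H q ^ (2 - σ) = H q ^ (-σ) * H q ^ 2 := by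
        rw [← Real.rpow_natCast (H q) 2, ← Real.rpow_add hH0]
        congr 1
        push_cast
        ring
      rw [h7]
      exact h5
    show H q ≤ _
    have h8 : H q = (H q ^ (2 - σ)) ^ (1 / (2 - σ)) := by
      rw [← Real.rpow_mul hH0.le, mul_one_div_cancel hs.ne', Real.rpow_one]
    rw [h8]
    exact Real.rpow_le_rpow (by positivity) h6.le (by positivity)
  intro hcon
  exact hA ((hfin.union hcon).subset fun q hq => by
    by_cases h3 : q ∈ {c : ℚ | |(c : ℝ) - z| ≤ H c ^ (-σ)}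
    · exact Or.inr h3
    · exact Or.inl ⟨hq, h3⟩)

theorem ae_irrational : ∀ᵐ z : ℝ, Irrational z := by
  filter_upwards [(Set.countable_range ((↑) : ℚ → ℝ)).ae_notMem volume] with z hz
  exact hz

/-- there are countably many number fields in a field of characteristic zero -/
theorem countable_fields (E : Type) [Field E] [CharZero E] :
    {K : IntermediateField ℚ E | NumberField K}.Countable := by
  have h0 : {x : E | IsAlgebraic ℚ x}.Countable := Algebraic.countable ℚ E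
  refine (h0.image (fun x => IntermediateField.adjoin ℚ {x})).mono ?_
  intro K hK
  have hK' : NumberField K := hK
  have hfd : FiniteDimensional ℚ K := NumberField.to_finiteDimensional
  obtain ⟨α, hα⟩ := Field.exists_primitive_element ℚ K
  refine ⟨(α : E), ?_, ?_⟩
  · have h1 : IsAlgebraic ℚ α := Algebra.IsAlgebraic.isAlgebraic α
    exact h1.algebraMap
  · have h2 := congrArg IntermediateField.lift hα
    exact ((IntermediateField.lift_adjoin_simple ℚ K α).symm.trans h2).trans (IntermediateField.lift_top ℚ K)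

/-- one null set for all number fields contained in `E = ℝ` or `ℂ` -/
theorem near_subfields (I : Set ℝ) (s : ℝ → ℝ) (Bad : ∀ (K : Type) [Field K] [NumberField K], ℝ → Set K)
    (hs : ∀ κ ∈ I, 0 ≤ s κ)
    (hcount : ∀ (K : Type) [Field K] [NumberField K], ∀ κ ∈ I, ∀ ε : ℝ, 0 < ε → ∃ C : ℝ, ∀ X : ℝ, 1 ≤ X →
      {c : K | c ∈ Bad K κ ∧ H c ≤ X}.Finite ∧
        ({c : K | c ∈ Bad K κ ∧ H c ≤ X}.ncard : ℝ) ≤ C * X ^ ((Module.finrank ℚ K : ℝ) * s κ + ε))
    (hdense : ∀ (K : Type) [Field K] [NumberField K], ∀ κ ∈ I, ∀ t : ℝ, s κ < t →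
      ∃ r : ℚ, (r : ℝ) ∈ I ∧ s r < t ∧ Bad K κ ⊆ Bad K r)
    (E : Type) [NormedField E] [CharZero E] [NormedSpace ℝ E] [FiniteDimensional ℝ E]
    [MeasurableSpace E] [BorelSpace E] (μ : Measure E) [μ.IsAddHaarMeasure]
    (hV : 0 < Module.finrank ℝ E) :
    ∀ᵐ z ∂μ, ∀ (K : IntermediateField ℚ E) [NumberField K], ∀ κ ∈ I, ∀ σ : ℝ,
      s κ / Module.finrank ℝ E < σ →
      {c : K | dist (c : E) z ≤ H c ^ (-(Module.finrank ℚ K * σ)) ∧ c ∈ Bad K κ}.Finite := by
  have hcnt : Countable {K : IntermediateField ℚ E // NumberField K} := (countable_fields E).to_subtype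
  have h1 : ∀ K : {K : IntermediateField ℚ E // NumberField K}, ∀ᵐ z ∂μ, ∀ _ : NumberField K.1, ∀ κ ∈ I, ∀ σ : ℝ,
      s κ / Module.finrank ℝ E < σ →
      {c : K.1 | dist (c : E) z ≤ H c ^ (-(Module.finrank ℚ K.1 * σ)) ∧ c ∈ Bad K.1 κ}.Finite := by
    rintro ⟨K, hK⟩
    have h2 := near_space (K := K) I s (Bad K) hs (hcount K) (hdense K) μ hV (fun c : K => (c : E))
    filter_upwards [h2] with z hz _ κ hκ σ hσ
    have hn : (0 : ℝ) < Module.finrank ℚ K := n_pos
    exact hz κ hκ (Module.finrank ℚ K * σ) (by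
      rw [mul_div_assoc]
      exact mul_lt_mul_of_pos_left hσ hn)
  filter_upwards [ae_all_iff.2 h1] with z hz K hK κ hκ σ hσ
  exact hz ⟨K, hK⟩ hK κ hκ σ hσ

end Pool.Agent.H164.NA
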